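import Mathlib

/-!
# Nemytskii operators on `C(𝒦, E)`, `𝒦` compact (after `Pool.Agent.GR.Flow`)
-/

set_option autoImplicit false
set_option linter.all false

open Topology Filter Set MeasureTheory

namespace Pool.Agent.Zk94.FL

noncomputable section

variable {𝒦 : Type} [TopologicalSpace 𝒦] [CompactSpace 𝒦]

/-- pointwise application as a bounded bilinear map -/
def pAppL {G E F : Type} [NormedAddCommGroup E] [NormedSpace ℝ E] [NormedAddCommGroup F]
    [NormedSpace ℝ F] [NormedAddCommGroup G] [NormedSpace ℝ G] (B : G →L[ℝ] E →L[ℝ] F) :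
    C(𝒦, G) →ₗ[ℝ] C(𝒦, E) →ₗ[ℝ] C(𝒦, F) :=
  LinearMap.mk₂ ℝ (fun (A : C(𝒦, G)) (β : C(𝒦, E)) =>
    (⟨fun s => B (A s) (β s), (B.continuous.comp A.continuous).clm_apply β.continuous⟩ :
      C(𝒦, F)))
    (fun A B β => by ext s; simp) (fun c A β => by ext s; simp)
    (fun A β γ => by ext s; simp) (fun c A β => by ext s; simp)

def pApp {G E F : Type} [NormedAddCommGroup E] [NormedSpace ℝ E] [NormedAddCommGroup F]
    [NormedSpace ℝ F] [NormedAddCommGroup G] [NormedSpace ℝ G] (B : G →L[ℝ] E →L[ℝ] F) :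
    C(𝒦, G) →L[ℝ] (C(𝒦, E) →L[ℝ] C(𝒦, F)) :=
  LinearMap.mkContinuous₂ (pAppL B) ‖B‖ (by
    intro A β
    refine (ContinuousMap.norm_le _ (by positivity)).2 fun s => ?_
    calc ‖B (A s) (β s)‖ ≤ ‖B‖ * ‖A s‖ * ‖β s‖ := B.le_opNorm₂ _ _
      _ ≤ ‖B‖ * ‖A‖ * ‖β‖ := by
        gcongr
        · exact A.norm_coe_le_norm s
        · exact β.norm_coe_le_norm s)

@[simp] lemma pApp_apply {G E F : Type} [NormedAddCommGroup E] [NormedSpace ℝ E]
    [NormedAddCommGroup F] [NormedSpace ℝ F] [NormedAddCommGroup G] [NormedSpace ℝ G]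
    (B : G →L[ℝ] E →L[ℝ] F) (A : C(𝒦, G))
    (β : C(𝒦, E)) (s : 𝒦) : pApp B A β s = B (A s) (β s) := rfl

lemma pApp_norm_le {G E F : Type} [NormedAddCommGroup E] [NormedSpace ℝ E]
    [NormedAddCommGroup F] [NormedSpace ℝ F] [NormedAddCommGroup G] [NormedSpace ℝ G]
    (B : G →L[ℝ] E →L[ℝ] F) (A : C(𝒦, G)) {M : ℝ} (hM : 0 ≤ M)
    (h : ∀ s, ‖B (A s)‖ ≤ M) : ‖pApp B A‖ ≤ M := by
  refine ContinuousLinearMap.opNorm_le_bound _ hM fun β => ?_
  refine (ContinuousMap.norm_le _ (by positivity)).2 fun s => ?_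
  rw [pApp_apply]
  exact ((B (A s)).le_opNorm _).trans
    (mul_le_mul (h s) (β.norm_coe_le_norm s) (norm_nonneg _) hM)

lemma continuous_nem {E F : Type} [NormedAddCommGroup E] [NormedAddCommGroup F] (X : C(E, F)) :
    Continuous (fun α : C(𝒦, E) => X.comp α) :=
  ContinuousMap.continuous_postcomp X

lemma hasFDerivAt_nem {G E F : Type} [NormedAddCommGroup E] [NormedSpace ℝ E]
    [NormedAddCommGroup F] [NormedSpace ℝ F] [NormedAddCommGroup G] [NormedSpace ℝ G]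
    (B : G →L[ℝ] E →L[ℝ] F) (X : C(E, F)) (X' : C(E, G))
    (hX : ∀ x, HasFDerivAt X (B (X' x)) x) (α : C(𝒦, E)) :
    HasFDerivAt (fun α : C(𝒦, E) => X.comp α) (pApp B (X'.comp α)) α := by
  rw [hasFDerivAt_iff_isLittleO_nhds_zero, Asymptotics.isLittleO_iff]
  intro ε' hε'
  set ε : ℝ := ε' / (‖B‖ + 1) with hεdef
  have hε : 0 < ε := by positivity
  have hεB : ‖B‖ * ε ≤ ε' := by
    rw [hεdef]
    have : ‖B‖ * (ε' / (‖B‖ + 1)) = (‖B‖ / (‖B‖ + 1)) * ε' := by ring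
    rw [this]
    have h2 : ‖B‖ / (‖B‖ + 1) ≤ 1 := by
      rw [div_le_one (by positivity)]; linarith
    nlinarith
  have hc := (continuous_nem X').continuousAt (x := α)
  have h1 : ∀ᶠ γ : C(𝒦, E) in 𝓝 α, dist (X'.comp γ) (X'.comp α) < ε :=
    hc.eventually (Metric.ball_mem_nhds _ hε)
  obtain ⟨δ, hδ, h1⟩ := Metric.eventually_nhds_iff.1 h1
  filter_upwards [Metric.ball_mem_nhds (0 : C(𝒦, E)) hδ] with β hβ
  rw [mem_ball_zero_iff] at hβ
  refine (ContinuousMap.norm_le _ (by positivity)).2 fun s => ?_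
  have h2 : ∀ z ∈ segment ℝ (α s) (α s + β s), ‖B (X' z) - B (X' (α s))‖ ≤ ε' := by
    intro z hz
    rw [segment_eq_image'] at hz
    obtain ⟨θ, hθ, rfl⟩ := hz
    have h3 : dist (α + θ • β) α < δ := by
      rw [dist_eq_norm, add_sub_cancel_left, norm_smul, Real.norm_of_nonneg hθ.1]
      calc θ * ‖β‖ ≤ 1 * ‖β‖ := by gcongr; exact hθ.2
        _ < δ := by rwa [one_mul]
    have h4 := h1 h3
    rw [dist_eq_norm] at h4
    have h5 := (ContinuousMap.norm_coe_le_norm (X'.comp (α + θ • β) - X'.comp α) s).trans h4.le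
    have h6 : ‖X' (α s + θ • (α s + β s - α s)) - X' (α s)‖ ≤ ε := by simpa using h5
    rw [← map_sub]
    exact (B.le_opNorm _).trans ((mul_le_mul_of_nonneg_left h6 (norm_nonneg _)).trans hεB)
  have h3 := (convex_segment (α s) (α s + β s)).norm_image_sub_le_of_norm_hasFDerivWithin_le'
    (f := X) (f' := fun z => B (X' z)) (φ := B (X' (α s))) (C := ε')
    (fun z _ => (hX z).hasFDerivWithinAt) h2 (left_mem_segment ℝ _ _) (right_mem_segment ℝ _ _)
  have h4 : ‖β s‖ ≤ ‖β‖ := β.norm_coe_le_norm s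
  calc ‖(X.comp (α + β) - X.comp α - (pApp B (X'.comp α)) β) s‖
      = ‖X (α s + β s) - X (α s) - B (X' (α s)) (α s + β s - α s)‖ := by simp
    _ ≤ ε' * ‖α s + β s - α s‖ := h3
    _ = ε' * ‖β s‖ := by rw [add_sub_cancel_left]
    _ ≤ ε' * ‖β‖ := by gcongr

lemma contDiff_nem_step {G E F : Type} [NormedAddCommGroup E] [NormedSpace ℝ E]
    [NormedAddCommGroup F] [NormedSpace ℝ F] [NormedAddCommGroup G] [NormedSpace ℝ G]
    (B : G →L[ℝ] E →L[ℝ] F) (X : C(E, F)) (X' : C(E, G))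
    (hX : ∀ x, HasFDerivAt X (B (X' x)) x) (m : ℕ)
    (ih : ContDiff ℝ m (fun α : C(𝒦, E) => X'.comp α)) :
    ContDiff ℝ (m + 1) (fun α : C(𝒦, E) => X.comp α) := by
  rw [contDiff_succ_iff_hasFDerivAt]
  exact ⟨fun α => pApp B (X'.comp α), ContDiff.comp (g := pApp B) (ContinuousLinearMap.contDiff _)
    ih, fun α => hasFDerivAt_nem B X X' hX α⟩

lemma contDiff_nem {E : Type} [NormedAddCommGroup E] [NormedSpace ℝ E] (m : ℕ) :
    ∀ {F : Type} [NormedAddCommGroup F] [NormedSpace ℝ F] (X : C(E, F)),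
    ContDiff ℝ m X → ContDiff ℝ m (fun α : C(𝒦, E) => X.comp α) := by
  induction m with
  | zero =>
    intro F _ _ X _
    rw [Nat.cast_zero, contDiff_zero]
    exact continuous_nem X
  | succ m ih =>
    intro F _ _ X hX
    have hX1 : Differentiable ℝ X := hX.differentiable (by simp)
    have hX2 : ContDiff ℝ m (fderiv ℝ X) := by
      have h := hX
      push_cast at h
      exact (contDiff_succ_iff_fderiv.1 h).2.2
    push_cast
    exact contDiff_nem_step (G := E →L[ℝ] F) (ContinuousLinearMap.id ℝ (E →L[ℝ] F)) X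
      ⟨fderiv ℝ X, hX2.continuous⟩ (fun x => (hX1 x).hasFDerivAt) m (ih _ hX2)


end

end Pool.Agent.Zk94.FL
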