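import Mathlib
import Pool.Agent.GR.Flow
import Pool.Agent.Zk94.FL.Nem

/-!
# Bounded Lipschitz maps and the system for the labels
-/

set_option autoImplicit false
set_option linter.all false

open Topology Filter Set MeasureTheory
open scoped ContDiff

namespace Pool.Agent.Zk94.FL

/-- bounded and Lipschitz -/
def BL {A E : Type} [NormedAddCommGroup A] [NormedAddCommGroup E] (f : A → E) : Prop :=
  ∃ K M : NNReal, (∀ x y, ‖f x - f y‖ ≤ K * ‖x - y‖) ∧ ∀ x, ‖f x‖ ≤ M

section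

variable {A B E G : Type} [NormedAddCommGroup A] [NormedAddCommGroup B] [NormedAddCommGroup E]
  [NormedAddCommGroup G] [NormedSpace ℝ E] [NormedSpace ℝ G]

theorem BL.smul {c : A → ℝ} {f : A → E} (hc : BL c) (hf : BL f) : BL (fun x => c x • f x) := by
  obtain ⟨K₁, M₁, h1, h2⟩ := hc
  obtain ⟨K₂, M₂, h3, h4⟩ := hf
  refine ⟨K₁ * M₂ + M₁ * K₂, M₁ * M₂, fun x y => ?_, fun x => ?_⟩
  · have e : c x • f x - c y • f y = (c x - c y) • f x + c y • (f x - f y) := by
      rw [sub_smul, smul_sub]; abel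
    rw [e]
    refine (norm_add_le _ _).trans ?_
    rw [norm_smul, norm_smul]
    have h5 : ‖c x - c y‖ * ‖f x‖ ≤ (K₁ * ‖x - y‖) * M₂ :=
      mul_le_mul (h1 x y) (h4 x) (norm_nonneg _) (by positivity)
    have h6 : ‖c y‖ * ‖f x - f y‖ ≤ M₁ * (K₂ * ‖x - y‖) :=
      mul_le_mul (h2 y) (h3 x y) (norm_nonneg _) (by positivity)
    push_cast
    linarith
  · rw [norm_smul]
    push_cast
    exact mul_le_mul (h2 x) (h4 x) (norm_nonneg _) (by positivity)

theorem BL.zero : BL (fun _ : A => (0 : E)) :=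
  ⟨0, 0, fun x y => by simp, fun x => by simp⟩

theorem BL.add {f g : A → E} (hf : BL f) (hg : BL g) : BL (fun x => f x + g x) := by
  obtain ⟨K₁, M₁, h1, h2⟩ := hf
  obtain ⟨K₂, M₂, h3, h4⟩ := hg
  refine ⟨K₁ + K₂, M₁ + M₂, fun x y => ?_, fun x => ?_⟩
  · have e : f x + g x - (f y + g y) = (f x - f y) + (g x - g y) := by abel
    rw [e]
    refine (norm_add_le _ _).trans ?_
    have h5 := h1 x y
    have h6 := h3 x y
    push_cast
    linarith
  · refine (norm_add_le _ _).trans ?_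
    push_cast
    exact add_le_add (h2 x) (h4 x)

theorem BL.sum {ι : Type} (s : Finset ι) {f : ι → A → E} (hf : ∀ i ∈ s, BL (f i)) :
    BL (fun x => ∑ i ∈ s, f i x) := by
  classical
  induction s using Finset.induction_on with
  | empty => simpa using BL.zero
  | insert i s hi ih =>
    have h1 := (hf i (Finset.mem_insert_self _ _)).add
      (ih fun j hj => hf j (Finset.mem_insert_of_mem hj))
    refine cast (congrArg BL ?_) h1
    funext x
    rw [Finset.sum_insert hi]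

theorem BL.comp {f : A → E} (hf : BL f) {g : B → A} {K : NNReal}
    (hg : ∀ x y, ‖g x - g y‖ ≤ K * ‖x - y‖) : BL (fun x => f (g x)) := by
  obtain ⟨K₁, M₁, h1, h2⟩ := hf
  refine ⟨K₁ * K, M₁, fun x y => ?_, fun x => h2 _⟩
  refine (h1 _ _).trans ?_
  push_cast
  rw [mul_assoc]
  exact mul_le_mul_of_nonneg_left (hg x y) K₁.2

theorem BL.clm {f : A → E} (hf : BL f) (L : E →L[ℝ] G) : BL (fun x => L (f x)) := by
  obtain ⟨K₁, M₁, h1, h2⟩ := hf
  refine ⟨‖L‖₊ * K₁, ‖L‖₊ * M₁, fun x y => ?_, fun x => ?_⟩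
  · rw [← map_sub]
    refine (L.le_opNorm _).trans ?_
    push_cast
    rw [mul_assoc]
    exact mul_le_mul_of_nonneg_left (h1 x y) (norm_nonneg _)
  · refine (L.le_opNorm _).trans ?_
    push_cast
    exact mul_le_mul_of_nonneg_left (h2 x) (norm_nonneg _)

theorem BL.lip {f : A → E} (hf : BL f) : ∃ K M : NNReal, LipschitzWith K f ∧ ∀ x, ‖f x‖ ≤ M := by
  obtain ⟨K₁, M₁, h1, h2⟩ := hf
  refine ⟨K₁, M₁, LipschitzWith.of_dist_le_mul fun x y => ?_, h2⟩
  rw [dist_eq_norm, dist_eq_norm]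
  exact h1 x y

theorem BL.of_compact [NormedSpace ℝ A] {f : A → E} (hf : ContDiff ℝ ∞ f)
    (hc : HasCompactSupport f) : BL f := by
  obtain ⟨K, hK⟩ := ContDiff.lipschitzWith_of_hasCompactSupport hc hf (by simp)
  obtain ⟨M, hM⟩ := hc.exists_bound_of_continuous hf.continuous
  refine ⟨K, M.toNNReal, fun x y => hK.norm_sub_le x y, fun x => (hM x).trans (Real.le_coe_toNNReal M)⟩

theorem BL.nem {𝒦 : Type} [TopologicalSpace 𝒦] [CompactSpace 𝒦] {A E : Type}
    [NormedAddCommGroup A] [NormedAddCommGroup E] (X : C(A, E)) (hX : BL X) :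
    BL (fun α : C(𝒦, A) => X.comp α) := by
  obtain ⟨K₁, M₁, h1, h2⟩ := hX
  refine ⟨K₁, M₁, fun x y => ?_, fun x => ?_⟩
  · refine (ContinuousMap.norm_le _ (by positivity)).2 fun s => ?_
    refine (h1 (x s) (y s)).trans ?_
    exact mul_le_mul_of_nonneg_left ((x - y).norm_coe_le_norm s) K₁.2
  · exact (ContinuousMap.norm_le _ (by positivity)).2 fun s => h2 _

theorem BL.pair {f : A → E} (hf : BL f) {c : G} : BL (fun x => (c, f x)) := by
  obtain ⟨K₁, M₁, h1, h2⟩ := hf
  refine ⟨K₁, ‖c‖₊ + M₁, fun x y => ?_, fun x => ?_⟩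
  · rw [Prod.mk_sub_mk, sub_self, Prod.norm_def]
    simp only [norm_zero]
    exact max_le (by positivity) (h1 x y)
  · rw [Prod.norm_def]
    push_cast
    refine max_le ?_ ?_
    · change ‖c‖ ≤ _
      linarith [M₁.coe_nonneg]
    · change ‖f x‖ ≤ _
      linarith [h2 x, norm_nonneg c]

end

/-- Lebesgue measure on the support -/
noncomputable def mu (w : ℝ × ℝ → ℝ) : Measure (tsupport w) :=
  Measure.comap (Subtype.val : tsupport w → ℝ × ℝ) volume

/-- the functional `f ↦ ∫ f w` -/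
theorem exists_functional (w : ℝ × ℝ → ℝ) (hw : Continuous w) (hwc : HasCompactSupport w)
    [CompactSpace (tsupport w)] :
    ∃ L : C(tsupport w, ℝ) →L[ℝ] ℝ, ∀ f, L f = ∫ y, f y * w y ∂(mu w) := by
  haveI : IsFiniteMeasure (mu w) := by
    refine ⟨?_⟩
    rw [mu, comap_subtype_coe_apply (isClosed_tsupport w).measurableSet, Set.image_univ,
      Subtype.range_coe]
    exact IsCompact.measure_lt_top hwc
  have hint : ∀ f : C(tsupport w, ℝ), Integrable (fun y : tsupport w => f y * w y) (mu w) :=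
    fun f => (f.continuous.mul (hw.comp continuous_subtype_val)).integrable_of_hasCompactSupport
      (HasCompactSupport.of_compactSpace _)
  have hint' : Integrable (fun y : tsupport w => ‖w y‖) (mu w) :=
    ((hw.comp continuous_subtype_val).norm).integrable_of_hasCompactSupport
      (HasCompactSupport.of_compactSpace _)
  refine ⟨LinearMap.mkContinuous
    { toFun := fun f => ∫ y, f y * w y ∂(mu w)
      map_add' := fun f g => by
        rw [← integral_add (hint f) (hint g)]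
        congr 1
        funext y
        rw [ContinuousMap.add_apply, add_mul]
      map_smul' := fun c f => by
        rw [RingHom.id_apply, smul_eq_mul, ← integral_const_mul]
        congr 1
        funext y
        rw [ContinuousMap.smul_apply, smul_eq_mul, mul_assoc] }
    (∫ y, ‖w y‖ ∂(mu w)) (fun f => ?_), fun f => rfl⟩
  change ‖∫ y, f y * w y ∂(mu w)‖ ≤ _
  refine (norm_integral_le_integral_norm _).trans ?_
  rw [mul_comm, ← integral_const_mul]
  refine integral_mono (hint f).norm (hint'.const_mul _) fun y => ?_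
  simp only
  rw [norm_mul]
  exact mul_le_mul_of_nonneg_right (f.norm_coe_le_norm y) (norm_nonneg _)

/-- smoothness of the solutions of a smooth autonomous equation in time -/
theorem contDiff_solution {E : Type} [NormedAddCommGroup E] [NormedSpace ℝ E] {F : E → E}
    (hF : ∀ n : ℕ, ContDiff ℝ n F) {γ : ℝ → E} (hγ : ∀ t, HasDerivAt γ (F (γ t)) t) (n : ℕ) :
    ContDiff ℝ n γ := by
  have hd : Differentiable ℝ γ := fun t => (hγ t).differentiableAt
  induction n with
  | zero =>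
    rw [Nat.cast_zero, contDiff_zero]
    exact hd.continuous
  | succ n ih =>
    rw [Nat.cast_add, Nat.cast_one, contDiff_succ_iff_deriv]
    refine ⟨hd, fun h => absurd h (by simp), ?_⟩
    have e : deriv γ = fun t => F (γ t) := funext fun t => (hγ t).deriv
    rw [e]
    exact (hF n).comp ih

theorem exists_coeff (s : Finset ℕ) (X : ℕ → ℝ × ℝ → ℝ × ℝ) (φ : ℕ → ℝ × ℝ → ℝ)
    (w₀ : ℝ × ℝ → ℝ)
    (hX : ∀ k, ContDiff ℝ ∞ (X k)) (hXc : ∀ k, HasCompactSupport (X k))
    (hφ : ∀ k, ContDiff ℝ ∞ (φ k)) (hφc : ∀ k, HasCompactSupport (φ k))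
    (hw : Continuous w₀) (hwc : HasCompactSupport w₀) :
    ∃ (a : ℕ → ℝ → ℝ) (Φ : ℝ → C(tsupport w₀, ℝ × ℝ)), (∀ y, Φ 0 y = y) ∧
      (∀ y t, HasDerivAt (fun t => Φ t y) (∑ k ∈ s, a k t • X k (Φ t y)) t) ∧
      (∀ k, (∀ n : ℕ, ContDiff ℝ n (a k)) ∧ BL (a k)) ∧
      ∀ k t, a k t = ∫ y, φ k (Φ t y) * w₀ y ∂(mu w₀) := by
  haveI : CompactSpace (tsupport w₀) := isCompact_iff_compactSpace.1 hwc
  obtain ⟨L, hL⟩ := exists_functional w₀ hw hwc
  let φc : ℕ → C(ℝ × ℝ, ℝ) := fun k => ⟨φ k, (hφ k).continuous⟩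
  let Xc : ℕ → C(ℝ × ℝ, ℝ × ℝ) := fun k => ⟨X k, (hX k).continuous⟩
  let c : ℕ → C(tsupport w₀, ℝ × ℝ) → ℝ := fun k Φ => L ((φc k).comp Φ)
  let F : C(tsupport w₀, ℝ × ℝ) → C(tsupport w₀, ℝ × ℝ) := fun Φ =>
    ∑ k ∈ s, c k Φ • (Xc k).comp Φ
  have hcBL : ∀ k, BL (c k) := fun k =>
    (BL.nem (φc k) (BL.of_compact (hφ k) (hφc k))).clm L
  have hFBL : BL F := BL.sum s fun k _ =>
    (hcBL k).smul (BL.nem (Xc k) (BL.of_compact (hX k) (hXc k)))
  have hcs : ∀ (n : ℕ) k, ContDiff ℝ n (c k) := fun n k =>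
    ContDiff.comp (g := L) (ContinuousLinearMap.contDiff _)
      (contDiff_nem n (φc k) (contDiff_infty.1 (hφ k) n))
  have hFs : ∀ n : ℕ, ContDiff ℝ n F := fun n => ContDiff.sum fun k _ =>
    (hcs n k).smul (contDiff_nem n (Xc k) (contDiff_infty.1 (hX k) n))
  obtain ⟨K, M, hK, hM⟩ := hFBL.lip
  obtain ⟨γ, hγ0, hγ⟩ := Pool.Agent.GR.Flow.exists_solution hK hM
    (⟨Subtype.val, continuous_subtype_val⟩ : C(tsupport w₀, ℝ × ℝ))
  have hγs := contDiff_solution hFs hγ
  have hγL : LipschitzWith M γ := lipschitzWith_of_nnnorm_deriv_le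
    (fun t => (hγ t).differentiableAt) fun t => by
      rw [(hγ t).deriv]; exact hM _
  refine ⟨fun k t => c k (γ t), γ, fun y => by rw [hγ0]; rfl, fun y t => ?_, fun k => ⟨fun n =>
    (hcs n k).comp (hγs n), ?_⟩, fun k t => hL _⟩
  · have h1 := (ContinuousMap.evalCLM ℝ y).hasFDerivAt.comp_hasDerivAt t (hγ t)
    refine HasDerivAt.congr_deriv h1 ?_
    rw [ContinuousMap.evalCLM_apply]
    change (∑ k ∈ s, c k (γ t) • (Xc k).comp (γ t)) y = _
    rw [ContinuousMap.sum_apply]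
    rfl
  · refine (hcBL k).comp (K := M) fun x y => ?_
    exact hγL.norm_sub_le x y

end Pool.Agent.Zk94.FL
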