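import Mathlib
import Pool.Agent.Zk94.FL.BL

/-!
# The nonlocal flow system in the plane
-/

set_option autoImplicit false
set_option linter.all false

open Topology Filter Set MeasureTheory
open scoped ContDiff

namespace Pool.Agent.Zk94.FL

open Pool.Agent.GR.Flow

/-- the flow of a field which depends on time -/
theorem exists_plane_flow (s : Finset ℕ) (X : ℕ → ℝ × ℝ → ℝ × ℝ)
    (hX : ∀ k, ContDiff ℝ ∞ (X k)) (hXc : ∀ k, HasCompactSupport (X k))
    (hXd : ∀ k p, (fderiv ℝ (X k) p (1, 0)).1 + (fderiv ℝ (X k) p (0, 1)).2 = 0)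
    (a : ℕ → ℝ → ℝ) (ha : ∀ k, (∀ n : ℕ, ContDiff ℝ n (a k)) ∧ BL (a k)) :
    ∃ Z Y : ℝ → ℝ × ℝ → ℝ × ℝ, ContDiff ℝ ∞ (fun q : ℝ × (ℝ × ℝ) => Z q.1 q.2) ∧
      ContDiff ℝ ∞ (fun q : ℝ × (ℝ × ℝ) => Y q.1 q.2) ∧ (∀ p, Z 0 p = p) ∧
      (∀ t p, Z t (Y t p) = p) ∧ (∀ t p, Y t (Z t p) = p) ∧
      (∀ t p, HasDerivAt (fun t => Z t p) (∑ k ∈ s, a k t • X k (Z t p)) t) ∧
      (∀ t p, (fderiv ℝ (Z t) p).det = 1) ∧
      (∀ (γ : ℝ → ℝ × ℝ), (∀ t, HasDerivAt γ (∑ k ∈ s, a k t • X k (γ t)) t) →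
        ∀ t, γ t = Z t (γ 0)) := by
  let V : ℝ × (ℝ × ℝ) → ℝ × ℝ := fun q => ∑ k ∈ s, a k q.1 • X k q.2
  have hVs : ∀ n : ℕ, ContDiff ℝ n V := fun n => ContDiff.sum fun k _ =>
    (((ha k).1 n).comp contDiff_fst).smul ((contDiff_infty.1 (hX k) n).comp contDiff_snd)
  have hfst : ∀ x y : ℝ × (ℝ × ℝ), ‖x.1 - y.1‖ ≤ (1 : NNReal) * ‖x - y‖ := fun x y => by
    rw [NNReal.coe_one, one_mul]
    exact norm_fst_le (x - y)
  have hsnd : ∀ x y : ℝ × (ℝ × ℝ), ‖x.2 - y.2‖ ≤ (1 : NNReal) * ‖x - y‖ := fun x y => by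
    rw [NNReal.coe_one, one_mul]
    exact norm_snd_le (x - y)
  have hVBL : BL V := BL.sum s fun k _ =>
    (BL.comp (ha k).2 hfst).smul (BL.comp (BL.of_compact (hX k) (hXc k)) hsnd)
  let W : C(ℝ × (ℝ × ℝ), ℝ × (ℝ × ℝ)) := ⟨fun q => (1, V q),
    continuous_const.prodMk (hVs 0).continuous⟩
  have hWBL : BL W := BL.pair (G := ℝ) hVBL
  have hWs : ∀ n : ℕ, ContDiff ℝ n W := fun n => contDiff_const.prodMk (hVs n)
  obtain ⟨K, M, hK, hM⟩ := hWBL.lip
  choose γ hγ0 hγ using fun q => exists_solution hK hM q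
  obtain ⟨g, hgdef⟩ : ∃ g : ℝ → ℝ × (ℝ × ℝ) → ℝ × (ℝ × ℝ), g = fun t q => γ q t := ⟨_, rfl⟩
  have hg : IsFlowOf W g := ⟨fun x => by rw [hgdef]; exact hγ0 x, fun x t => by
    rw [hgdef]; exact hγ x t⟩
  have hgs : ∀ n : ℕ, ContDiff ℝ n (fun p : ℝ × (ℝ × (ℝ × ℝ)) => g p.1 p.2) := by
    intro n
    have h1 : ContDiff ℝ ((n + 1 : ℕ) : WithTop ℕ∞)
      (fun p : ℝ × (ℝ × (ℝ × ℝ)) => g p.1 p.2) :=
      contDiff_flow (Nat.succ_ne_zero n) (hWs (n + 1)) hK hg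
    exact h1.of_le (by exact_mod_cast Nat.le_succ n)
  have hg1 : ∀ t q, (g t q).1 = q.1 + t := by
    intro t q
    have h1 : ∀ t, HasDerivAt (fun t => (g t q).1 - t) 0 t := by
      intro t
      have h2 := (ContinuousLinearMap.fst ℝ ℝ (ℝ × ℝ)).hasFDerivAt.comp_hasDerivAt t (hg.deriv q t)
      have h3 := h2.sub (hasDerivAt_id t)
      refine HasDerivAt.congr_deriv h3 ?_
      change (1 : ℝ) - 1 = 0
      norm_num
    have h2 := is_const_of_deriv_eq_zero (fun t => (h1 t).differentiableAt)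
      (fun t => (h1 t).deriv) t 0
    rw [hg.zero] at h2
    linarith
  -- the derivative of the flow from `τ`
  have hder : ∀ τ z t, HasDerivAt (fun t => (g t (τ, z)).2)
      (∑ k ∈ s, a k (τ + t) • X k (g t (τ, z)).2) t := by
    intro τ z t
    have h2 := (ContinuousLinearMap.snd ℝ ℝ (ℝ × ℝ)).hasFDerivAt.comp_hasDerivAt t
      (hg.deriv (τ, z) t)
    refine HasDerivAt.congr_deriv h2 ?_
    change V (g t (τ, z)) = _
    change ∑ k ∈ s, a k (g t (τ, z)).1 • X k (g t (τ, z)).2 = _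
    rw [hg1]
  have hpair : ∀ t q, g t q = (q.1 + t, (g t q).2) := fun t q => Prod.ext (hg1 t q) rfl
  have hZadd : ∀ t r p, (g (t + r) (0, p)).2 = (g r (t, (g t (0, p)).2)).2 := by
    intro t r p
    rw [add_comm t r, hg.add hK]
    congr 2
    rw [hpair t (0, p)]
    simp only [zero_add]
  have hZs : ∀ n : ℕ, ContDiff ℝ n (fun q : ℝ × (ℝ × ℝ) => (g q.1 (0, q.2)).2) := fun n =>
    contDiff_snd.comp ((hgs n).comp (contDiff_fst.prodMk (contDiff_const.prodMk contDiff_snd)))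
  have hYs : ∀ n : ℕ, ContDiff ℝ n (fun q : ℝ × (ℝ × ℝ) => (g (-q.1) (q.1, q.2)).2) := fun n =>
    contDiff_snd.comp ((hgs n).comp (contDiff_fst.neg.prodMk (contDiff_fst.prodMk contDiff_snd)))
  have hζs : ∀ (τ t : ℝ) (n : ℕ), ContDiff ℝ n (fun z : ℝ × ℝ => (g t (τ, z)).2) := fun τ t n =>
    contDiff_snd.comp ((hgs n).comp (contDiff_const.prodMk (contDiff_const.prodMk contDiff_id)))
  have hζd : ∀ τ t, Differentiable ℝ (fun z : ℝ × ℝ => (g t (τ, z)).2) := fun τ t =>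
    (hζs τ t 1).differentiable (by simp)
  -- the determinant
  have hW1 : ContDiff ℝ 1 W := by simpa using hWs 1
  have hVd : ∀ q : ℝ × (ℝ × ℝ), ∀ v : ℝ × ℝ, (fderiv ℝ W q (0, v)).2 =
      ∑ k ∈ s, a k q.1 • fderiv ℝ (X k) q.2 v := by
    intro q v
    -- along the line `q + (0, r v)`
    have h1 : HasFDerivAt W (fderiv ℝ W q) q := (hW1.differentiable one_ne_zero q).hasFDerivAt
    have h2 : HasFDerivAt (fun z : ℝ × ℝ => W (q.1, z))
      ((fderiv ℝ W q).comp (ContinuousLinearMap.inr ℝ ℝ (ℝ × ℝ))) q.2 :=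
      HasFDerivAt.comp (g := W) q.2 h1 (hasFDerivAt_prodMk_right q.1 q.2)
    have h3 := (ContinuousLinearMap.snd ℝ ℝ (ℝ × ℝ)).hasFDerivAt.comp q.2 h2
    have h4 : HasFDerivAt (fun z : ℝ × ℝ => ∑ k ∈ s, a k q.1 • X k z)
        (∑ k ∈ s, a k q.1 • fderiv ℝ (X k) q.2) q.2 := by
      refine HasFDerivAt.fun_sum fun k _ => ?_
      exact (((hX k).differentiable (by simp) q.2).hasFDerivAt).const_smul (a k q.1)
    have h5 := congrArg (fun T => T v) (h3.unique h4)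
    simpa using h5
  have hder0 : ∀ (τ : ℝ) (q : ℝ × ℝ),
      HasDerivAt (fun r => (fderiv ℝ (fun z => (g r (τ, z)).2) q).det) 0 0 := by
    intro τ q
    have hfd : ∀ r v, fderiv ℝ (fun z => (g r (τ, z)).2) q v =
        (fderiv ℝ (g r) (τ, q) (0, v)).2 := by
      intro r v
      have h0 : Differentiable ℝ (g r) := by
        have : ContDiff ℝ ((1 : ℕ) : WithTop ℕ∞) (g r) :=
          (hgs 1).comp (contDiff_const.prodMk contDiff_id)
        exact this.differentiable (by simp)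
      have h1 : HasFDerivAt (g r) (fderiv ℝ (g r) (τ, q)) (τ, q) := (h0 _).hasFDerivAt
      have h2 : HasFDerivAt (fun z : ℝ × ℝ => g r (τ, z))
        ((fderiv ℝ (g r) (τ, q)).comp (ContinuousLinearMap.inr ℝ ℝ (ℝ × ℝ))) q :=
        HasFDerivAt.comp (g := g r) q h1 (hasFDerivAt_prodMk_right τ q)
      have h3 := (ContinuousLinearMap.snd ℝ ℝ (ℝ × ℝ)).hasFDerivAt.comp q h2
      exact congrArg (fun T : (ℝ × ℝ) →L[ℝ] (ℝ × ℝ) => T v) h3.fderiv
    have hv : ∀ v : ℝ × ℝ, HasDerivAt (fun r => fderiv ℝ (fun z => (g r (τ, z)).2) q v)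
        (∑ k ∈ s, a k τ • fderiv ℝ (X k) q v) 0 := by
      intro v
      have h1 := hasDerivAt_fderiv_flow hW1 hK hg (τ, q) (0, v)
      have h2 := (ContinuousLinearMap.snd ℝ ℝ (ℝ × ℝ)).hasFDerivAt.comp_hasDerivAt 0 h1
      have h3 : (fun r => fderiv ℝ (fun z => (g r (τ, z)).2) q v) =
          (⇑(ContinuousLinearMap.snd ℝ ℝ (ℝ × ℝ)) ∘ fun t => fderiv ℝ (g t) (τ, q) (0, v)) := by
        funext r
        exact hfd r v
      rw [h3]
      refine HasDerivAt.congr_deriv h2 ?_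
      exact hVd (τ, q) v
    have h11 := (ContinuousLinearMap.fst ℝ ℝ ℝ).hasFDerivAt.comp_hasDerivAt 0 (hv (1, 0))
    have h12 := (ContinuousLinearMap.snd ℝ ℝ ℝ).hasFDerivAt.comp_hasDerivAt 0 (hv (1, 0))
    have h21 := (ContinuousLinearMap.fst ℝ ℝ ℝ).hasFDerivAt.comp_hasDerivAt 0 (hv (0, 1))
    have h22 := (ContinuousLinearMap.snd ℝ ℝ ℝ).hasFDerivAt.comp_hasDerivAt 0 (hv (0, 1))
    have h3 := (h11.mul h22).sub (h21.mul h12)
    have h4 : (fun r => (fderiv ℝ (fun z => (g r (τ, z)).2) q).det) = fun r =>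
        (fderiv ℝ (fun z => (g r (τ, z)).2) q (1, 0)).1 *
          (fderiv ℝ (fun z => (g r (τ, z)).2) q (0, 1)).2 -
        (fderiv ℝ (fun z => (g r (τ, z)).2) q (0, 1)).1 *
          (fderiv ℝ (fun z => (g r (τ, z)).2) q (1, 0)).2 := by
      funext r; exact det_plane _
    rw [h4]
    refine HasDerivAt.congr_deriv h3 ?_
    have e0 : fderiv ℝ (fun z => (g 0 (τ, z)).2) q = ContinuousLinearMap.id ℝ (ℝ × ℝ) := by
      have : (fun z : ℝ × ℝ => (g 0 (τ, z)).2) = id := by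
        funext z; rw [hg.zero]; rfl
      rw [this, fderiv_id]
    have hsum : (∑ k ∈ s, a k τ • fderiv ℝ (X k) q (1, 0)).1 +
        (∑ k ∈ s, a k τ • fderiv ℝ (X k) q (0, 1)).2 = 0 := by
      rw [Prod.fst_sum, Prod.snd_sum, ← Finset.sum_add_distrib]
      refine Finset.sum_eq_zero fun k _ => ?_
      rw [Prod.smul_fst, Prod.smul_snd, ← smul_add, hXd k q, smul_zero]
    simp only [Function.comp_apply, e0, ContinuousLinearMap.coe_fst', ContinuousLinearMap.coe_snd',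
      ContinuousLinearMap.id_apply]
    linear_combination hsum
  have hdet : ∀ t p, (fderiv ℝ (fun z => (g t (0, z)).2) p).det = 1 := by
    intro t p
    have hd : ∀ t, HasDerivAt (fun r => (fderiv ℝ (fun z => (g r (0, z)).2) p).det) 0 t := by
      intro t
      obtain ⟨q, hq⟩ : ∃ q, q = (g t (0, p)).2 := ⟨_, rfl⟩
      have h1 : (fun r => (fderiv ℝ (fun z => (g r (0, z)).2) p).det) = fun r =>
          (fderiv ℝ (fun z => (g (r - t) (t, z)).2) q).det *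
            (fderiv ℝ (fun z => (g t (0, z)).2) p).det := by
        funext r
        have h2 : (fun z => (g r (0, z)).2) = (fun z => (g (r - t) (t, z)).2) ∘
            (fun z : ℝ × ℝ => (g t (0, z)).2) := by
          funext z
          rw [Function.comp_apply, ← hZadd, add_sub_cancel]
        rw [h2, fderiv_comp p (hζd _ _ _) (hζd _ _ _), hq]
        simp only [ContinuousLinearMap.det, ContinuousLinearMap.toLinearMap_comp]
        rw [LinearMap.det_comp]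
      rw [h1]
      have h3 : HasDerivAt (fun r => (fderiv ℝ (fun z => (g (r - t) (t, z)).2) q).det) 0 t := by
        have h4 := hder0 t q
        rw [← sub_self t] at h4
        have h5 := HasDerivAt.comp t
          (h₂ := fun r => (fderiv ℝ (fun z => (g r (t, z)).2) q).det)
          (h := fun r => r - t) (by simpa using h4) ((hasDerivAt_id t).sub_const t)
        rw [zero_mul] at h5
        exact h5
      have h6 := h3.mul_const ((fderiv ℝ (fun z => (g t (0, z)).2) p).det)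
      rwa [zero_mul] at h6
    have h7 : (fderiv ℝ (fun z => (g t (0, z)).2) p).det =
        (fderiv ℝ (fun z => (g 0 (0, z)).2) p).det :=
      is_const_of_deriv_eq_zero (fun s => (hd s).differentiableAt) (fun s => (hd s).deriv) t 0
    have e0 : (fun z : ℝ × ℝ => (g 0 (0, z)).2) = id := by
      funext z; rw [hg.zero]; rfl
    rw [h7, e0, fderiv_id, det_plane]
    simp
  refine ⟨fun t p => (g t (0, p)).2, fun t p => (g (-t) (t, p)).2, contDiff_infty.2 hZs,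
    contDiff_infty.2 hYs, fun p => by change (g 0 (0, p)).2 = p; rw [hg.zero], fun t p => ?_, fun t p => ?_, fun t p => ?_,
    hdet, fun γ' hγ' t => ?_⟩
  · have h1 : g (-t) (t, p) = (0, (g (-t) (t, p)).2) := by
      rw [hpair (-t) (t, p)]
      simp
    simp only
    rw [← h1, ← hg.add hK, add_neg_cancel, hg.zero]
  · have h1 : g t (0, p) = (t, (g t (0, p)).2) := by
      rw [hpair t (0, p)]
      simp
    simp only
    rw [← h1, ← hg.add hK, neg_add_cancel, hg.zero]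
  · have h1 := hder 0 p t
    rwa [zero_add] at h1
  · obtain ⟨K', M', hK', -⟩ := hVBL
    have h1 : γ' = fun t => (g t (0, γ' 0)).2 := by
      refine ODE_solution_unique_univ (v := fun t z => ∑ k ∈ s, a k t • X k z)
        (s := fun _ => univ) (K := K') (t₀ := 0) (fun t => ?_) (fun t => ⟨hγ' t, trivial⟩)
        (fun t => ⟨?_, trivial⟩) ?_
      · refine LipschitzWith.lipschitzOnWith (LipschitzWith.of_dist_le_mul fun x y => ?_)
        rw [dist_eq_norm, dist_eq_norm]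
        have h2 := hK' (t, x) (t, y)
        refine h2.trans_eq ?_
        rw [Prod.mk_sub_mk, sub_self, Prod.norm_def]
        simp
      · have h2 := hder 0 (γ' 0) t
        rwa [zero_add] at h2
      · change γ' 0 = (g 0 (0, γ' 0)).2
        rw [hg.zero]
    exact congrFun h1 t

theorem exists_flow_all (s : Finset ℕ) (X : ℕ → ℝ × ℝ → ℝ × ℝ) (φ : ℕ → ℝ × ℝ → ℝ)
    (w₀ : ℝ × ℝ → ℝ)
    (hX : ∀ k, ContDiff ℝ ∞ (X k)) (hXc : ∀ k, HasCompactSupport (X k))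
    (hXd : ∀ k p, (fderiv ℝ (X k) p (1, 0)).1 + (fderiv ℝ (X k) p (0, 1)).2 = 0)
    (hφ : ∀ k, ContDiff ℝ ∞ (φ k)) (hφc : ∀ k, HasCompactSupport (φ k))
    (hw : Continuous w₀) (hwc : HasCompactSupport w₀) :
    ∃ Z Y : ℝ → ℝ × ℝ → ℝ × ℝ, ContDiff ℝ ∞ (fun q : ℝ × (ℝ × ℝ) => Z q.1 q.2) ∧
      ContDiff ℝ ∞ (fun q : ℝ × (ℝ × ℝ) => Y q.1 q.2) ∧ (∀ p, Z 0 p = p) ∧
      (∀ t p, Z t (Y t p) = p) ∧ (∀ t p, Y t (Z t p) = p) ∧
      (∀ t, MeasurePreserving (Z t) volume volume) ∧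
      (∀ t, MeasurePreserving (Y t) volume volume) ∧
      ∀ t p, HasDerivAt (fun t => Z t p)
        (∑ k ∈ s, (∫ x, φ k x * w₀ (Y t x)) • X k (Z t p)) t := by
  obtain ⟨a, Φ, hΦ0, hΦ, ha, haΦ⟩ := exists_coeff s X φ w₀ hX hXc hφ hφc hw hwc
  obtain ⟨Z, Y, hZs, hYs, hZ0, hZY, hYZ, hZd, hdet, huniq⟩ := exists_plane_flow s X hX hXc hXd a ha
  have hZst : ∀ t, ContDiff ℝ ∞ (Z t) := fun t => hZs.comp (contDiff_const.prodMk contDiff_id)
  have hYst : ∀ t, ContDiff ℝ ∞ (Y t) := fun t => hYs.comp (contDiff_const.prodMk contDiff_id)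
  have hmp : ∀ t, MeasurePreserving (Z t) volume volume := fun t =>
    measurePreserving_of_det (Z t) ⟨fun p q h => by rw [← hYZ t p, h, hYZ], fun p => ⟨Y t p, hZY t p⟩⟩
      (fderiv ℝ (Z t)) (fun p => ((hZst t).differentiable (by simp) p).hasFDerivAt) (hdet t)
  let hom : ℝ → (ℝ × ℝ) ≃ₜ (ℝ × ℝ) := fun t =>
    { toFun := Z t
      invFun := Y t
      left_inv := hYZ t
      right_inv := hZY t
      continuous_toFun := (hZst t).continuous
      continuous_invFun := (hYst t).continuous }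
  have hmpY : ∀ t, MeasurePreserving (Y t) volume volume := fun t =>
    MeasurePreserving.symm (hom t).toMeasurableEquiv (hmp t)
  have hcoef : ∀ k t, a k t = ∫ x, φ k x * w₀ (Y t x) := by
    intro k t
    have h1 : ∫ x, φ k x * w₀ (Y t x) = ∫ y, φ k (Z t y) * w₀ y := by
      rw [← (hmp t).integral_comp (hom t).measurableEmbedding]
      simp only [hYZ]
    rw [h1, haΦ k t, mu]
    have h2 : ∀ y : tsupport w₀, Φ t y = Z t y := by
      intro y
      have h3 : Φ t y = Z t (Φ 0 y) := huniq (fun t => Φ t y) (hΦ y) t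
      rw [h3, hΦ0]
    simp only [h2]
    rw [integral_subtype_comap (isClosed_tsupport w₀).measurableSet
      (fun y => φ k (Z t y) * w₀ y)]
    refine setIntegral_eq_integral_of_forall_compl_eq_zero fun x hx => ?_
    rw [image_eq_zero_of_notMem_tsupport hx, mul_zero]
  refine ⟨Z, Y, hZs, hYs, hZ0, hZY, hYZ, hmp, hmpY, fun t p => ?_⟩
  simp only [← hcoef]
  exact hZd t p

/-- **module F** -/
theorem exists_flow_mp (s : Finset ℕ) (X : ℕ → ℝ × ℝ → ℝ × ℝ) (φ : ℕ → ℝ × ℝ → ℝ)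
    (w₀ : ℝ × ℝ → ℝ)
    (hX : ∀ k ∈ s, ContDiff ℝ ∞ (X k)) (hXc : ∀ k ∈ s, HasCompactSupport (X k))
    (hXd : ∀ k ∈ s, ∀ p, (fderiv ℝ (X k) p (1, 0)).1 + (fderiv ℝ (X k) p (0, 1)).2 = 0)
    (hφ : ∀ k ∈ s, ContDiff ℝ ∞ (φ k)) (hφc : ∀ k ∈ s, HasCompactSupport (φ k))
    (hw : ContDiff ℝ ∞ w₀) (hwc : HasCompactSupport w₀) :
    ∃ Z Y : ℝ → ℝ × ℝ → ℝ × ℝ, ContDiff ℝ ∞ (fun q : ℝ × (ℝ × ℝ) => Z q.1 q.2) ∧
      ContDiff ℝ ∞ (fun q : ℝ × (ℝ × ℝ) => Y q.1 q.2) ∧ (∀ p, Z 0 p = p) ∧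
      (∀ t p, Z t (Y t p) = p) ∧ (∀ t p, Y t (Z t p) = p) ∧
      (∀ t, MeasurePreserving (Z t) volume volume) ∧
      (∀ t, MeasurePreserving (Y t) volume volume) ∧
      ∀ t p, HasDerivAt (fun t => Z t p)
        (∑ k ∈ s, (∫ x, φ k x * w₀ (Y t x)) • X k (Z t p)) t := by
  classical
  obtain ⟨Z, Y, h1, h2, h3, h4, h5, h6, h7, h8⟩ := exists_flow_all s
    (fun k => if k ∈ s then X k else 0) (fun k => if k ∈ s then φ k else 0) w₀
    (fun k => by
      by_cases hk : k ∈ s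
      · simp only [if_pos hk]; exact hX k hk
      · simp only [if_neg hk]; exact contDiff_const)
    (fun k => by
      by_cases hk : k ∈ s
      · simp only [if_pos hk]; exact hXc k hk
      · simp only [if_neg hk]; exact HasCompactSupport.zero)
    (fun k p => by
      by_cases hk : k ∈ s
      · simp only [if_pos hk]; exact hXd k hk p
      · simp only [if_neg hk]
        have : fderiv ℝ (0 : ℝ × ℝ → ℝ × ℝ) p = 0 := by
          have := fderiv_const (𝕜 := ℝ) (E := ℝ × ℝ) (0 : ℝ × ℝ)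
          exact congrFun this p
        rw [this]
        simp)
    (fun k => by
      by_cases hk : k ∈ s
      · simp only [if_pos hk]; exact hφ k hk
      · simp only [if_neg hk]; exact contDiff_const)
    (fun k => by
      by_cases hk : k ∈ s
      · simp only [if_pos hk]; exact hφc k hk
      · simp only [if_neg hk]; exact HasCompactSupport.zero) hw.continuous hwc
  refine ⟨Z, Y, h1, h2, h3, h4, h5, h6, h7, fun t p => HasDerivAt.congr_deriv (h8 t p) ?_⟩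
  refine Finset.sum_congr rfl fun k hk => ?_
  simp only [if_pos hk]

/-- **module F**, in the form which was asked for -/
theorem exists_flow (s : Finset ℕ) (X : ℕ → ℝ × ℝ → ℝ × ℝ) (φ : ℕ → ℝ × ℝ → ℝ)
    (w₀ : ℝ × ℝ → ℝ)
    (hX : ∀ k ∈ s, ContDiff ℝ ∞ (X k)) (hXc : ∀ k ∈ s, HasCompactSupport (X k))
    (hXd : ∀ k ∈ s, ∀ p, (fderiv ℝ (X k) p (1, 0)).1 + (fderiv ℝ (X k) p (0, 1)).2 = 0)
    (hφ : ∀ k ∈ s, ContDiff ℝ ∞ (φ k)) (hφc : ∀ k ∈ s, HasCompactSupport (φ k))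
    (hw : ContDiff ℝ ∞ w₀) (hwc : HasCompactSupport w₀) :
    ∃ Z Y : ℝ → ℝ × ℝ → ℝ × ℝ, ContDiff ℝ ∞ (fun q : ℝ × (ℝ × ℝ) => Z q.1 q.2) ∧
      ContDiff ℝ ∞ (fun q : ℝ × (ℝ × ℝ) => Y q.1 q.2) ∧ (∀ p, Z 0 p = p) ∧
      (∀ t p, Z t (Y t p) = p) ∧ (∀ t p, Y t (Z t p) = p) ∧
      ∀ t p, HasDerivAt (fun t => Z t p)
        (∑ k ∈ s, (∫ x, φ k x * w₀ (Y t x)) • X k (Z t p)) t := by
  obtain ⟨Z, Y, h1, h2, h3, h4, h5, -, -, h8⟩ :=
    exists_flow_mp s X φ w₀ hX hXc hXd hφ hφc hw hwc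
  exact ⟨Z, Y, h1, h2, h3, h4, h5, h8⟩

end Pool.Agent.Zk94.FL
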